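import Pool.Agent.Helper37.PC.St

set_option autoImplicit false

/-! Project PC (helper37), module BA (helper84): basic facts on visited nodes. -/

namespace Pool.Agent.Helper37.PC

open Topology OnePoint Set TopologicalSpace

private theorem vis_suffix_BA {Λ : Type} {a : List Λ → OnePoint Λ} :
    ∀ (s t : List Λ), Vis a s → t <:+ s → Vis a t := by
  intro s
  induction s with
  | nil =>
    intro t _ h
    rw [List.suffix_nil.1 h]
    trivial
  | cons i s ih =>
    intro t hs h
    rcases List.suffix_cons_iff.1 h with h | h
    · rw [h]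
      exact hs
    · exact ih t hs.1 h

theorem hBA : StBA := by
  intro Λ G Z D x
  obtain ⟨hC1, hC2, _⟩ := x.2
  have hF2 : ∀ t : List Λ, ¬ Vis x.1.1 t → x.1.1 t = ∞ ∧ x.1.2.1 t = ∞ := by
    intro t
    induction t with
    | nil => intro h; exact absurd trivial h
    | cons i t ih =>
      intro h
      have h1 : x.1.1 t ≠ (i : OnePoint Λ) := by
        intro h2
        have h3 : ¬ Vis x.1.1 t := fun h4 => h ⟨h4, h2⟩
        have h5 := (ih h3).1
        rw [h2] at h5
        exact OnePoint.coe_ne_infty i h5
      exact hC2 t i h1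
  have hF1 : ∀ (t : List Λ) (i : Λ), Vis x.1.1 (i :: t) ↔ x.1.1 t = (i : OnePoint Λ) := by
    intro t i
    constructor
    · exact fun h => h.2
    · intro h
      refine ⟨?_, h⟩
      by_contra h2
      have h3 := (hF2 t h2).1
      rw [h] at h3
      exact OnePoint.coe_ne_infty i h3
  have hF3 : ∀ t s : List Λ, Vis x.1.1 t → Vis x.1.1 s → t <:+ s ∨ s <:+ t := by
    intro t
    induction t with
    | nil => intro s _ _; exact Or.inl (List.nil_suffix)
    | cons i t ih =>
      intro s ht hs
      rcases ih s ht.1 hs with h | h
      · obtain ⟨u, rfl⟩ := h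
        rcases List.eq_nil_or_concat u with hu | ⟨u', j, hu⟩
        · right
          rw [hu, List.nil_append]
          exact List.suffix_cons i t
        · left
          have e : u ++ t = u' ++ (j :: t) := by rw [hu]; simp
          rw [e] at hs ⊢
          have h1 : Vis x.1.1 (j :: t) := vis_suffix_BA _ _ hs (List.suffix_append u' (j :: t))
          have h2 : (i : OnePoint Λ) = (j : OnePoint Λ) := ht.2.symm.trans h1.2
          have h3 : i = j := OnePoint.coe_injective h2
          rw [h3]
          exact List.suffix_append u' (j :: t)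
      · right
        exact h.trans (List.suffix_cons i t)
  refine ⟨hF1, hF2, hF3, ?_, ?_, ?_⟩
  · intro t s i ht h
    have h1 : Vis x.1.1 (i :: s) := vis_suffix_BA _ _ ht h
    exact ⟨h1.2, hC1 s i h1.2⟩
  · by_cases h : ∃ t : List Λ, Vis x.1.1 t ∧ x.1.1 t = ∞
    · exact Or.inl h
    · right
      push Not at h
      have h1 : ∀ t : {t : List Λ // Vis x.1.1 t}, ∃ i : Λ, x.1.1 t.1 = (i : OnePoint Λ) := by
        intro t
        obtain ⟨i, hi⟩ := OnePoint.ne_infty_iff_exists.1 (h t.1 t.2)
        exact ⟨i, hi.symm⟩
      choose c hc using h1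
      let L : ℕ → {t : List Λ // Vis x.1.1 t} := fun m =>
        Nat.rec ⟨[], trivial⟩ (fun _ t => ⟨c t :: t.1, ⟨t.2, hc t⟩⟩) m
      have hL : ∀ m, pre (fun m => c (L m)) m = (L m).1 := by
        intro m
        induction m with
        | zero => rfl
        | succ m ih =>
          show c (L m) :: pre (fun m => c (L m)) m = c (L m) :: (L m).1
          rw [ih]
      refine ⟨fun m => c (L m), fun m => ?_⟩
      rw [hL m]
      exact hc (L m)
  · intro f hf t
    constructor
    · induction t with
      | nil => intro _; exact ⟨0, rfl⟩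
      | cons i t ih =>
        intro h
        obtain ⟨m, hm⟩ := ih h.1
        refine ⟨m + 1, ?_⟩
        have h1 := h.2
        rw [hm, hf m] at h1
        have h2 : f m = i := OnePoint.coe_injective h1
        show i :: t = f m :: pre f m
        rw [h2, hm]
    · rintro ⟨m, rfl⟩
      induction m with
      | zero => trivial
      | succ m ih => exact ⟨ih, hf m⟩

end Pool.Agent.Helper37.PC
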