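import Pool.Agent.Helper37.PC.St

set_option autoImplicit false

namespace Pool.Agent.Helper37.PC

open Topology OnePoint Set TopologicalSpace

section CL
variable {Λ G Z : Type} [TopologicalSpace Λ] [DiscreteTopology Λ] [TopologicalSpace G] [DiscreteTopology G]
  [TopologicalSpace Z] [CompactSpace Z] [T2Space Z]

theorem clopen_label_CL (t : List Λ) (i : Λ) :
    IsClopen {x : (List Λ → OnePoint Λ) × (List Λ → OnePoint (G × Z)) × (G → Z) |
      x.1 t = (i : OnePoint Λ)} := by
  have h1 : Continuous fun x : (List Λ → OnePoint Λ) × (List Λ → OnePoint (G × Z)) × (G → Z) => x.1 t :=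
    (continuous_apply t).comp continuous_fst
  have h2 : IsClopen ({(i : OnePoint Λ)} : Set (OnePoint Λ)) := by
    refine ⟨isClosed_singleton, ?_⟩
    have := OnePoint.isOpenEmbedding_coe.isOpenMap ({i} : Set Λ) (isOpen_discrete _)
    rwa [Set.image_singleton] at this
  exact h2.preimage h1

theorem clopen_vis_CL (t : List Λ) :
    IsClopen {x : (List Λ → OnePoint Λ) × (List Λ → OnePoint (G × Z)) × (G → Z) | Vis x.1 t} := by
  induction t with
  | nil => simpa [Vis] using isClopen_univ
  | cons i t ih => exact ih.inter (clopen_label_CL t i)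

theorem closed_Sp_CL (h1 : StRC) (D : Dat Λ G Z) : IsClosed (Sp D) := by
  have hq : ∀ t : List Λ, Continuous
      fun x : (List Λ → OnePoint Λ) × (List Λ → OnePoint (G × Z)) × (G → Z) => x.2.1 t :=
    fun t => (continuous_apply t).comp (continuous_fst.comp continuous_snd)
  have ha : ∀ t : List Λ, Continuous
      fun x : (List Λ → OnePoint Λ) × (List Λ → OnePoint (G × Z)) × (G → Z) => x.1 t :=
    fun t => (continuous_apply t).comp continuous_fst
  have hr : ∀ g : G, Continuous
      fun x : (List Λ → OnePoint Λ) × (List Λ → OnePoint (G × Z)) × (G → Z) => x.2.2 g :=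
    fun g => (continuous_apply g).comp (continuous_snd.comp continuous_snd)
  have e : Sp D = {x | ∀ (t : List Λ) (i : Λ), x.1 t = (i : OnePoint Λ) → x.2.1 t = io D i} ∩
      ({x | ∀ (t : List Λ) (i : Λ), x.1 t ≠ (i : OnePoint Λ) → x.1 (i :: t) = ∞ ∧ x.2.1 (i :: t) = ∞} ∩
      {x | ∀ g m, Vis x.1 (pre (D.γ g) m) → x.1 (pre (D.γ g) m) ≠ ((D.γ g m : Λ) : OnePoint Λ) →
        x.2.2 g = ret D g (x.2.1 (pre (D.γ g) m))}) := rfl
  rw [e]
  refine IsClosed.inter ?_ (IsClosed.inter ?_ ?_)
  · simp only [Set.setOf_forall]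
    refine isClosed_iInter fun t => isClosed_iInter fun i => ?_
    have h2 : IsClosed {x : (List Λ → OnePoint Λ) × (List Λ → OnePoint (G × Z)) × (G → Z) |
        x.2.1 t = io D i} := isClosed_eq (hq t) continuous_const
    have h3 := (clopen_label_CL (G := G) (Z := Z) t i).isOpen.isClosed_compl.union h2
    convert h3 using 1
    ext x
    simp only [Set.mem_iInter, Set.mem_union, Set.mem_compl_iff, Set.mem_setOf_eq]
    exact imp_iff_not_or
  · simp only [Set.setOf_forall]
    refine isClosed_iInter fun t => isClosed_iInter fun i => ?_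
    have h2 : IsClosed {x : (List Λ → OnePoint Λ) × (List Λ → OnePoint (G × Z)) × (G → Z) |
        x.1 (i :: t) = ∞ ∧ x.2.1 (i :: t) = ∞} :=
      (isClosed_eq (ha _) continuous_const).inter (isClosed_eq (hq _) continuous_const)
    have h3 := (clopen_label_CL (G := G) (Z := Z) t i).isClosed.union h2
    convert h3 using 1
    ext x
    simp only [Set.mem_iInter, Set.mem_union, Set.mem_setOf_eq]
    exact or_iff_not_imp_left.symm
  · simp only [Set.setOf_forall]
    refine isClosed_iInter fun g => isClosed_iInter fun m => ?_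
    have h2 : IsClosed {x : (List Λ → OnePoint Λ) × (List Λ → OnePoint (G × Z)) × (G → Z) |
        x.2.2 g = ret D g (x.2.1 (pre (D.γ g) m))} :=
      isClosed_eq (hr g) ((h1 Λ G Z D g).comp (hq _))
    have h3 := (clopen_vis_CL (G := G) (Z := Z) (pre (D.γ g) m)).isOpen.isClosed_compl.union
      ((clopen_label_CL (G := G) (Z := Z) (pre (D.γ g) m) (D.γ g m)).isClosed.union h2)
    convert h3 using 1
    ext x
    simp only [Set.mem_iInter, Set.mem_union, Set.mem_compl_iff, Set.mem_setOf_eq]
    rw [imp_iff_not_or (a := Vis x.1 (pre (D.γ g) m)), or_iff_not_imp_left (a := x.1 (pre (D.γ g) m) = _)]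

end CL

theorem hCL (h1 : StRC) : StCL := by
  intro Λ G Z _ _ _ _ _ _ _ D
  refine ⟨isCompact_iff_compactSpace.1 (closed_Sp_CL h1 D).isCompact, inferInstance, ?_⟩
  intro t
  exact (clopen_vis_CL (G := G) (Z := Z) t).preimage continuous_subtype_val

end Pool.Agent.Helper37.PC
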