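import Pool.Agent.Helper37.PC.St

set_option autoImplicit false

/-! Project PC, module OG: the two cases needed (helper4). -/

namespace Pool.Agent.Helper37.PC

open Topology OnePoint TopologicalSpace

theorem secCount_of_metr (X : Type) [TopologicalSpace X] [CompactSpace X] (h : MetrizableSpace X) :
    SecondCountableTopology X := by
  let _ : MetricSpace X := metrizableSpaceMetric X
  infer_instance

theorem hOG (h1 : StOM) : StOG := by
  constructor
  · intro Λ _ _
    refine h1 Λ ?_
    intro s hs
    refine ⟨s, subset_rfl, isClosed_discrete s, ?_⟩
    have : Countable s := hs.to_subtype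
    infer_instance
  · intro G Z _ _ _ _ _ hZ
    refine h1 (G × Z) ?_
    intro s hs
    set G0 : Set G := Prod.fst '' s with hG0
    set Z0 : Set Z := Prod.snd '' s with hZ0
    have hG0c : G0.Countable := hs.image _
    have hZ0c : Z0.Countable := hs.image _
    refine ⟨G0 ×ˢ closure Z0, ?_, ?_, ?_⟩
    · intro p hp
      exact ⟨⟨p, hp, rfl⟩, subset_closure ⟨p, hp, rfl⟩⟩
    · exact (isClosed_discrete G0).prod isClosed_closure
    · have : Countable G0 := hG0c.to_subtype
      have : CompactSpace (closure Z0) := isCompact_iff_compactSpace.mp isClosed_closure.isCompact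
      have : SecondCountableTopology (closure Z0) := secCount_of_metr _ (hZ Z0 hZ0c)
      have : SecondCountableTopology G0 := inferInstance
      exact (Homeomorph.Set.prod G0 (closure Z0)).secondCountableTopology

end Pool.Agent.Helper37.PC
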