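import Pool.Agent.Helper37.PC.St

/-!
# Project PC: module OM (one-point compactifications are omega-monolithic)
-/

set_option autoImplicit false

namespace Pool.Agent.Helper37.PC

open Topology OnePoint Set TopologicalSpace Filter

theorem OM_second (M : Type) [TopologicalSpace M] [T2Space M] [LocallyCompactSpace M]
    [SecondCountableTopology M] : SecondCountableTopology (OnePoint M) := by
  obtain ⟨b, hbc, -, hb⟩ := exists_countable_basis M
  let K : CompactExhaustion M := default
  have hB : IsTopologicalBasis (((fun s : Set M => ((↑) '' s : Set (OnePoint M))) '' b) ∪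
      range (fun n : ℕ => ((↑) '' (K n) : Set (OnePoint M))ᶜ)) := by
    apply isTopologicalBasis_of_isOpen_of_nhds
    · rintro u (⟨s, hs, rfl⟩ | ⟨n, rfl⟩)
      · exact isOpen_image_coe.2 (hb.isOpen hs)
      · exact isOpen_compl_image_coe.2 ⟨(K.isCompact n).isClosed, K.isCompact n⟩
    · intro a u ha hu
      induction a using OnePoint.rec with
      | infty =>
        obtain ⟨h1, h2⟩ := (isOpen_iff_of_mem ha).1 hu
        obtain ⟨n, hn⟩ := K.exists_superset_of_isCompact h2
        refine ⟨_, Or.inr ⟨n, rfl⟩, infty_notMem_image_coe, ?_⟩
        intro x hx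
        induction x using OnePoint.rec with
        | infty => exact ha
        | coe y =>
          by_contra hc
          exact hx ⟨y, hn hc, rfl⟩
      | coe y =>
        have h1 : IsOpen ((↑) ⁻¹' u : Set M) := hu.preimage continuous_coe
        obtain ⟨v, hv, hyv, hvu⟩ := hb.exists_subset_of_mem_open (show y ∈ ((↑) ⁻¹' u : Set M) from ha) h1
        refine ⟨_, Or.inl ⟨v, hv, rfl⟩, ⟨y, hyv, rfl⟩, ?_⟩
        rintro _ ⟨z, hz, rfl⟩
        exact hvu hz
  exact hB.secondCountableTopology ((hbc.image _).union (countable_range _))

theorem hOM : StOM := by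
  intro L _ _ _ hL S hS
  have hs : ((↑) ⁻¹' S : Set L).Countable := hS.preimage_of_injOn coe_injective.injOn
  obtain ⟨M, hsM, hMc, hMs⟩ := hL _ hs
  have : LocallyCompactSpace M := hMc.isClosedEmbedding_subtypeVal.locallyCompactSpace
  have := OM_second M
  have : MetrizableSpace (OnePoint M) := metrizableSpace_of_t3_secondCountable _
  let j : OnePoint M → OnePoint L := OnePoint.map (Subtype.val : M → L)
  have hjc : Continuous j := by
    apply continuous_map continuous_subtype_val
    rw [coclosedCompact_eq_cocompact, coclosedCompact_eq_cocompact]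
    exact hMc.isClosedEmbedding_subtypeVal.tendsto_cocompact
  have hji : Function.Injective j := Option.map_injective Subtype.val_injective
  have hj : IsClosedEmbedding j := hjc.isClosedEmbedding hji
  have : MetrizableSpace (range j) := (hj.isEmbedding.toHomeomorph.symm.isEmbedding).metrizableSpace
  have hsub : closure S ⊆ range j := by
    apply closure_minimal _ hj.isClosed_range
    intro x hx
    induction x using OnePoint.rec with
    | infty => exact ⟨∞, rfl⟩
    | coe y => exact ⟨((⟨y, hsM hx⟩ : M) : OnePoint M), rfl⟩
  exact (IsEmbedding.inclusion hsub).metrizableSpace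

end Pool.Agent.Helper37.PC
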