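import Pool.Agent.Helper37.PC.St

set_option autoImplicit false

namespace Pool.Agent.Helper37.PC

open Topology OnePoint Set TopologicalSpace

theorem hRC : StRC := by
  intro Λ G Z _ _ _ _ _ D g
  classical
  have hcoe : ∀ p : G × Z, ret D g (p : OnePoint (G × Z)) = if p.1 = g then p.2 else D.z0 := by
    intro p
    unfold ret
    show (if p.1 = g then p.2 else D.z0) = _
    congr 1
  have hinf : ret D g ∞ = D.z0 := rfl
  rw [OnePoint.continuous_iff]
  refine ⟨?_, ?_⟩
  · rw [hinf]
    intro U hU
    rw [Filter.mem_map, Filter.hasBasis_coclosedCompact.mem_iff]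
    refine ⟨({g} : Set G) ×ˢ univ, ⟨?_, ?_⟩, ?_⟩
    · exact (isClosed_discrete _).prod isClosed_univ
    · exact isCompact_singleton.prod isCompact_univ
    · intro p hp
      have hp' : p.1 ≠ g := by
        intro h
        exact hp ⟨h, mem_univ _⟩
      show ret D g (p : OnePoint (G × Z)) ∈ U
      rw [hcoe, if_neg hp']
      exact mem_of_mem_nhds hU
  · have h1 : (fun p : G × Z => ret D g (p : OnePoint (G × Z)))
        = fun p : G × Z => if p.1 = g then p.2 else D.z0 := funext hcoe
    rw [h1]
    have hcl : IsClopen {p : G × Z | p.1 = g} :=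
      (isClopen_discrete ({g} : Set G)).preimage continuous_fst
    apply Continuous.if _ continuous_snd continuous_const
    intro a ha
    rw [hcl.frontier_eq] at ha
    exact absurd ha (notMem_empty a)

end Pool.Agent.Helper37.PC
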