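import Pool.Agent.Helper37.PC.St

set_option autoImplicit false

/-! Module MC of project PC (proved by helper60). -/

namespace Pool.Agent.Helper37.PC

open Topology OnePoint Set TopologicalSpace

theorem hMC : StMC := by
  intro K J _ _ _ M _ hM φ hφ hinj
  let _ : ∀ j, MetricSpace (M j) := fun j => @metrizableSpaceMetric (M j) _ (hM j)
  have : MetrizableSpace (∀ j, M j) := UniformSpace.metrizableSpace
  have hc : Continuous (fun x : K => (fun j => φ j x : ∀ j, M j)) :=
    continuous_pi hφ
  have hi : Function.Injective (fun x : K => (fun j => φ j x : ∀ j, M j)) := by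
    intro x y h
    exact hinj x y (fun j => congrFun h j)
  exact (hc.isClosedEmbedding hi).isEmbedding.metrizableSpace

end Pool.Agent.Helper37.PC
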